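import Pool.Agent.Helper80.NH.Stm

/-!
# BASE' of `N_2(1/2) = 2`: the offset of the arm `T` is at least 15 degrees

Weights: one half on the gap (R, B2), one half on the larger of the gaps (L, T), (B1, L).
Proof: tangent for the chord (B2, B1), multipliers `9/50` (torque) and `2/5` (`sin A + sin C`),
two cases `0 ≤ D`, `D ≤ 0`, and concavity in every variable.
-/

set_option autoImplicit false

namespace H11ST
namespace NH
namespace BP

open Real Set

/-- a function `p cos + q sin + m x + n - r sin (α + σ x/2) - r' sin (α' + σ' x/2)` which is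
concave on `[a, b]` is there at least the minimum of its values at `a` and `b` -/
lemma conc {f : ℝ → ℝ} {p q m n r α σ r' α' σ' a b x : ℝ}
    (hf : ∀ y, f y = p * cos y + q * sin y + m * y + n - r * sin (α + σ * (y / 2)) -
      r' * sin (α' + σ' * (y / 2)))
    (hσ : σ ^ 2 = 1) (hσ' : σ' ^ 2 = 1) (hx : x ∈ Icc a b)
    (h : ∀ y ∈ Icc a b, 0 ≤ p * cos y + q * sin y - r / 4 * sin (α + σ * (y / 2)) -
      r' / 4 * sin (α' + σ' * (y / 2))) : min (f a) (f b) ≤ f x := by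
  have hlin : ∀ (α σ y : ℝ), HasDerivAt (fun y : ℝ => α + σ * (y / 2)) (σ * (1 / 2)) y := by
    intro α σ y
    exact ((hasDerivAt_id y).div_const 2 |>.const_mul σ).const_add α
  have d1 : ∀ y, HasDerivAt f (-(p * sin y) + q * cos y + m -
      r * (cos (α + σ * (y / 2)) * (σ * (1 / 2))) -
      r' * (cos (α' + σ' * (y / 2)) * (σ' * (1 / 2)))) y := by
    intro y
    have e : f = fun y => p * cos y + q * sin y + m * y + n - r * sin (α + σ * (y / 2)) -
      r' * sin (α' + σ' * (y / 2)) := funext hf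
    rw [e]
    have t1 := (hasDerivAt_cos y).const_mul p
    have t2 := (hasDerivAt_sin y).const_mul q
    have t3 := (hasDerivAt_id y).const_mul m
    have t4 := ((hlin α σ y).sin).const_mul r
    have t5 := ((hlin α' σ' y).sin).const_mul r'
    have t := ((((t1.add t2).add t3).add_const n).sub t4).sub t5
    refine t.congr_deriv ?_
    ring
  have d2 : ∀ y, HasDerivAt (fun y => -(p * sin y) + q * cos y + m -
      r * (cos (α + σ * (y / 2)) * (σ * (1 / 2))) -
      r' * (cos (α' + σ' * (y / 2)) * (σ' * (1 / 2))))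
      (-(p * cos y + q * sin y - r / 4 * sin (α + σ * (y / 2)) -
      r' / 4 * sin (α' + σ' * (y / 2)))) y := by
    intro y
    have t1 := ((hasDerivAt_sin y).const_mul p).neg
    have t2 := (hasDerivAt_cos y).const_mul q
    have t4 := (((hlin α σ y).cos).mul_const (σ * (1 / 2))).const_mul r
    have t5 := (((hlin α' σ' y).cos).mul_const (σ' * (1 / 2))).const_mul r'
    have t := ((((t1.add t2).add_const m)).sub t4).sub t5
    refine t.congr_deriv ?_
    have e1 : σ * σ = 1 := by rw [← sq]; exact hσ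
    have e2 : σ' * σ' = 1 := by rw [← sq]; exact hσ'
    linear_combination (r * sin (α + σ * (y / 2)) / 4) * e1 +
      (r' * sin (α' + σ' * (y / 2)) / 4) * e2
  have hc : ConcaveOn ℝ (Icc a b) f := by
    refine concaveOn_of_hasDerivWithinAt2_nonpos (convex_Icc a b)
      (fun y _ => (d1 y).continuousAt.continuousWithinAt)
      (fun y _ => (d1 y).hasDerivWithinAt) (fun y _ => (d2 y).hasDerivWithinAt) ?_
    intro y hy
    have := h y (interior_subset hy)
    linarith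
  exact hc.min_le_of_mem_Icc (left_mem_Icc.mpr (hx.1.trans hx.2))
    (right_mem_Icc.mpr (hx.1.trans hx.2)) hx

lemma pos_of_min {x y z c : ℝ} (h : min x y ≤ z) (hx : c ≤ x) (hy : c ≤ y) : c ≤ z :=
  (le_min hx hy).trans h

/-! ### constants -/

lemma s3a : (1.73205 : ℝ) < √3 := by
  rw [Real.lt_sqrt (by norm_num)]; norm_num
lemma s3b : √3 < (1.73206 : ℝ) := by
  rw [Real.sqrt_lt' (by norm_num)]; norm_num
lemma s2a : (1.41421 : ℝ) < √2 := by
  rw [Real.lt_sqrt (by norm_num)]; norm_num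
lemma s2b : √2 < (1.41422 : ℝ) := by
  rw [Real.sqrt_lt' (by norm_num)]; norm_num

lemma cos_lo {k : ℝ} (h1 : -(π / 6) ≤ k) (h2 : k ≤ π / 6) : √3 / 2 ≤ cos k := by
  rw [← cos_pi_div_six, ← cos_abs k]
  exact cos_le_cos_of_nonneg_of_le_pi (abs_nonneg k) (by linarith [pi_pos]) (abs_le.mpr ⟨h1, h2⟩)

lemma sin_hi {k : ℝ} (h1 : -(π / 6) ≤ k) (h2 : k ≤ π / 6) : sin k ≤ 1 / 2 := by
  rw [← sin_pi_div_six]
  exact sin_le_sin_of_le_of_le_pi_div_two (by linarith [pi_pos]) (by linarith [pi_pos]) h2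

lemma sin_lo {k : ℝ} (h1 : -(π / 6) ≤ k) (h2 : k ≤ π / 6) : -(1 / 2) ≤ sin k := by
  have := sin_hi (k := -k) (by linarith) (by linarith)
  rw [sin_neg] at this
  linarith

/-- cos 15 degrees, sin 15 degrees -/
lemma c15 : 0.9659 < cos (π / 12) ∧ cos (π / 12) < 0.966 := by
  have h : cos (π / 12) ^ 2 = 1 / 2 + √3 / 4 := by
    rw [cos_sq, show 2 * (π / 12) = π / 6 by ring, cos_pi_div_six]; ring
  have h0 : 0 ≤ cos (π / 12) :=
    cos_nonneg_of_neg_pi_div_two_le_of_le (by linarith [pi_pos]) (by linarith [pi_pos])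
  constructor
  · nlinarith [s3a, s3b]
  · nlinarith [s3a, s3b]

lemma si15 : 0.2588 < sin (π / 12) ∧ sin (π / 12) < 0.2589 := by
  have h : sin (π / 12) ^ 2 = 1 / 2 - √3 / 4 := by
    rw [sin_sq, cos_sq, show 2 * (π / 12) = π / 6 by ring, cos_pi_div_six]; ring
  have h0 : 0 ≤ sin (π / 12) := sin_nonneg_of_nonneg_of_le_pi (by linarith [pi_pos])
    (by linarith [pi_pos])
  constructor
  · nlinarith [s3a, s3b]
  · nlinarith [s3a, s3b]

/-- sin 7.5 degrees -/
lemma si7 : sin (π / 24) < 0.1307 := by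
  have h : sin (π / 24) ^ 2 = 1 / 2 - cos (π / 12) / 2 := by
    rw [sin_sq, cos_sq, show 2 * (π / 24) = π / 12 by ring]; ring
  have h0 : 0 ≤ sin (π / 24) := sin_nonneg_of_nonneg_of_le_pi (by linarith [pi_pos])
    (by linarith [pi_pos])
  nlinarith [c15.1, c15.2]

/-- sin 22.5 degrees -/
lemma si22 : sin (π / 8) < 0.3828 := by
  have h : sin (π / 8) ^ 2 = 1 / 2 - √2 / 4 := by
    rw [sin_sq, cos_sq, show 2 * (π / 8) = π / 4 by ring, cos_pi_div_four]; ring
  have h0 : 0 ≤ sin (π / 8) := sin_nonneg_of_nonneg_of_le_pi (by linarith [pi_pos])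
    (by linarith [pi_pos])
  nlinarith [s2a, s2b]

/-- sin 37.5 degrees -/
lemma si37 : sin (5 * π / 24) < 0.6088 := by
  have h : sin (5 * π / 24) ^ 2 = 1 / 2 - sin (π / 12) / 2 := by
    rw [sin_sq, cos_sq, show 2 * (5 * π / 24) = π / 2 - π / 12 by ring, cos_pi_div_two_sub]; ring
  have h0 : 0 ≤ sin (5 * π / 24) := sin_nonneg_of_nonneg_of_le_pi (by linarith [pi_pos])
    (by linarith [pi_pos])
  nlinarith [si15.1, si15.2]

/-- sin 52.5 degrees -/
lemma si52 : sin (7 * π / 24) < 0.7934 := by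
  have h : sin (7 * π / 24) ^ 2 = 1 / 2 + sin (π / 12) / 2 := by
    rw [sin_sq, cos_sq, show 2 * (7 * π / 24) = π / 12 + π / 2 by ring, cos_add_pi_div_two]; ring
  have h0 : 0 ≤ sin (7 * π / 24) := sin_nonneg_of_nonneg_of_le_pi (by linarith [pi_pos])
    (by linarith [pi_pos])
  nlinarith [si15.1, si15.2]

/-- sin 75 degrees -/
lemma si75 : sin (5 * π / 12) = cos (π / 12) := by
  rw [show 5 * π / 12 = π / 2 - π / 12 by ring, sin_pi_div_two_sub]

/-! ### the two separate functions -/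

/-- the part with `A`, `C` -/
noncomputable def k1 (A C O : ℝ) : ℝ := cos A + cos C - √3 / 2 * (A - π / 6) -
  sin (π / 3 - (A + C) / 2) - 2 * sin (π / 6 + (C - O) / 2) + 29 / 50 * sin C + 11 / 50 * sin A

/-- the part with `B`, `D`; `(s, t) = (1, 2)` or `(2, 1)` -/
noncomputable def k2 (s t B D O : ℝ) : ℝ := cos B + cos D - √3 / 2 * (B - π / 6) -
  s * sin (π / 6 + (D + O) / 2) - t * sin (π / 3 - (B + D) / 2) + 9 / 50 * (sin B - sin D)

/-- the rest -/
noncomputable def k3 (O : ℝ) : ℝ := cos O + 9 / 50 * sin O - 1 - √3 / 5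

lemma k1_ge {A C O c : ℝ} (hA : A ∈ Icc (-(π / 6)) (π / 6)) (hC : C ∈ Icc (-(π / 6)) (π / 6))
    (hO : π / 12 ≤ O) (hO2 : O ≤ π / 6)
    (h1 : c ≤ k1 (-(π / 6)) (-(π / 6)) O) (h2 : c ≤ k1 (-(π / 6)) (π / 6) O)
    (h3 : c ≤ k1 (π / 6) (-(π / 6)) O) (h4 : c ≤ k1 (π / 6) (π / 6) O) : c ≤ k1 A C O := by
  have hpi := pi_pos
  have stepC : ∀ A : ℝ, c ≤ k1 A (-(π / 6)) O → c ≤ k1 A (π / 6) O → c ≤ k1 A C O := by
    intro A i1 i2
    refine pos_of_min (conc (f := fun C => k1 A C O) (p := 1) (q := 29 / 50) (m := 0)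
      (n := cos A - √3 / 2 * (A - π / 6) + 11 / 50 * sin A) (r := 1) (α := π / 3 - A / 2)
      (σ := -1) (r' := 2) (α' := π / 6 - O / 2) (σ' := 1) ?_ (by norm_num) (by norm_num) hC ?_)
      i1 i2
    · intro y
      simp only [k1]
      rw [show π / 3 - (A + y) / 2 = π / 3 - A / 2 + -1 * (y / 2) by ring,
        show π / 6 + (y - O) / 2 = π / 6 - O / 2 + 1 * (y / 2) by ring]
      ring
    · intro y hy
      have i3 := cos_lo hy.1 hy.2
      have i4 := sin_lo hy.1 hy.2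
      have i5 := sin_le_one (π / 3 - A / 2 + -1 * (y / 2))
      have i6 : sin (π / 6 - O / 2 + 1 * (y / 2)) ≤ sin (5 * π / 24) :=
        sin_le_sin_of_le_of_le_pi_div_two (by linarith [hy.1]) (by linarith) (by linarith [hy.2])
      linarith [si37, s3a]
  have stepA : ∀ C : ℝ, c ≤ k1 (-(π / 6)) C O → c ≤ k1 (π / 6) C O → c ≤ k1 A C O := by
    intro C i1 i2
    refine pos_of_min (conc (f := fun A => k1 A C O) (p := 1) (q := 11 / 50) (m := -(√3 / 2))
      (n := cos C + √3 / 2 * (π / 6) + 29 / 50 * sin C - 2 * sin (π / 6 + (C - O) / 2)) (r := 1)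
      (α := π / 3 - C / 2) (σ := -1) (r' := 0) (α' := 0) (σ' := 1) ?_ (by norm_num) (by norm_num)
      hA ?_) i1 i2
    · intro y
      simp only [k1]
      rw [show π / 3 - (y + C) / 2 = π / 3 - C / 2 + -1 * (y / 2) by ring]
      ring
    · intro y hy
      have i3 := cos_lo hy.1 hy.2
      have i4 := sin_lo hy.1 hy.2
      have i5 := sin_le_one (π / 3 - C / 2 + -1 * (y / 2))
      linarith [s3a]
  exact stepA C (stepC _ h1 h2) (stepC _ h3 h4)

lemma k2_ge {s t B D O d1 d2 c : ℝ} (hs : 0 ≤ s) (ht : 0 ≤ t) (ht2 : t ≤ 2) (hst : s + t = 3)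
    (hB : B ∈ Icc (-(π / 6)) (π / 6)) (hD : D ∈ Icc d1 d2) (hd1 : -(π / 6) ≤ d1)
    (hd2 : d2 ≤ π / 6)
    (h1 : c ≤ k2 s t (-(π / 6)) d1 O) (h2 : c ≤ k2 s t (-(π / 6)) d2 O)
    (h3 : c ≤ k2 s t (π / 6) d1 O) (h4 : c ≤ k2 s t (π / 6) d2 O) : c ≤ k2 s t B D O := by
  have stepD : ∀ B : ℝ, c ≤ k2 s t B d1 O → c ≤ k2 s t B d2 O → c ≤ k2 s t B D O := by
    intro B i1 i2
    refine pos_of_min (conc (f := fun D => k2 s t B D O) (p := 1) (q := -(9 / 50)) (m := 0)
      (n := cos B - √3 / 2 * (B - π / 6) + 9 / 50 * sin B) (r := s) (α := π / 6 + O / 2)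
      (σ := 1) (r' := t) (α' := π / 3 - B / 2) (σ' := -1) ?_ (by norm_num) (by norm_num) hD ?_)
      i1 i2
    · intro y
      simp only [k2]
      rw [show π / 3 - (B + y) / 2 = π / 3 - B / 2 + -1 * (y / 2) by ring,
        show π / 6 + (y + O) / 2 = π / 6 + O / 2 + 1 * (y / 2) by ring]
      ring
    · intro y hy
      have i3 := cos_lo (hd1.trans hy.1) (hy.2.trans hd2)
      have i4 := sin_hi (hd1.trans hy.1) (hy.2.trans hd2)
      have i5 := mul_le_mul_of_nonneg_left (sin_le_one (π / 6 + O / 2 + 1 * (y / 2)))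
        (by linarith : 0 ≤ s / 4)
      have i6 := mul_le_mul_of_nonneg_left (sin_le_one (π / 3 - B / 2 + -1 * (y / 2)))
        (by linarith : 0 ≤ t / 4)
      linarith [s3a]
  have stepB : ∀ D : ℝ, c ≤ k2 s t (-(π / 6)) D O → c ≤ k2 s t (π / 6) D O →
      c ≤ k2 s t B D O := by
    intro D i1 i2
    refine pos_of_min (conc (f := fun B => k2 s t B D O) (p := 1) (q := 9 / 50) (m := -(√3 / 2))
      (n := cos D + √3 / 2 * (π / 6) - 9 / 50 * sin D - s * sin (π / 6 + (D + O) / 2)) (r := t)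
      (α := π / 3 - D / 2) (σ := -1) (r' := 0) (α' := 0) (σ' := 1) ?_ (by norm_num) (by norm_num)
      hB ?_) i1 i2
    · intro y
      simp only [k2]
      rw [show π / 3 - (y + D) / 2 = π / 3 - D / 2 + -1 * (y / 2) by ring]
      ring
    · intro y hy
      have i3 := cos_lo hy.1 hy.2
      have i4 := sin_lo hy.1 hy.2
      have i5 := mul_le_mul_of_nonneg_left (sin_le_one (π / 3 - D / 2 + -1 * (y / 2)))
        (by linarith : 0 ≤ t / 4)
      linarith [s3a]
  exact stepB D (stepD _ h1 h2) (stepD _ h3 h4)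

/-- reduction in `O` -/
lemma phi_ge {s t A B C D O c : ℝ} (hs : 0 ≤ s) (hs2 : s ≤ 2) (hC : C ≤ π / 6)
    (hC2 : -(π / 6) ≤ C) (hO : O ∈ Icc (π / 12) (π / 6))
    (h1 : c ≤ k1 A C (π / 12) + k2 s t B D (π / 12) + k3 (π / 12))
    (h2 : c ≤ k1 A C (π / 6) + k2 s t B D (π / 6) + k3 (π / 6)) :
    c ≤ k1 A C O + k2 s t B D O + k3 O := by
  have hpi := pi_pos
  refine pos_of_min (conc (f := fun O => k1 A C O + k2 s t B D O + k3 O) (p := 1)
    (q := 9 / 50) (m := 0)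
    (n := cos A + cos C - √3 / 2 * (A - π / 6) - sin (π / 3 - (A + C) / 2) +
      29 / 50 * sin C + 11 / 50 * sin A + cos B + cos D - √3 / 2 * (B - π / 6) -
      t * sin (π / 3 - (B + D) / 2) + 9 / 50 * (sin B - sin D) - 1 - √3 / 5)
    (r := 2) (α := π / 6 + C / 2) (σ := -1) (r' := s) (α' := π / 6 + D / 2) (σ' := 1) ?_
    (by norm_num) (by norm_num) hO ?_) h1 h2
  · intro y
    simp only [k1, k2, k3]
    rw [show π / 6 + (C - y) / 2 = π / 6 + C / 2 + -1 * (y / 2) by ring,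
      show π / 6 + (D + y) / 2 = π / 6 + D / 2 + 1 * (y / 2) by ring]
    ring
  · intro y hy
    have i3 := cos_lo (by linarith [hy.1]) hy.2
    have i4 : 0 ≤ sin y := sin_nonneg_of_nonneg_of_le_pi (by linarith [hy.1]) (by linarith [hy.2])
    have i5 := mul_le_mul_of_nonneg_left (sin_le_one (π / 6 + D / 2 + 1 * (y / 2)))
      (by linarith : 0 ≤ s / 4)
    have i6 : sin (π / 6 + C / 2 + -1 * (y / 2)) ≤ sin (5 * π / 24) :=
      sin_le_sin_of_le_of_le_pi_div_two (by linarith [hy.2]) (by linarith) (by linarith [hy.1])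
    linarith [si37, s3a]

/-! ### the vertices -/

lemma pi_lo : (3.14 : ℝ) < π := pi_gt_d2

lemma s3pi : (5.4386 : ℝ) ≤ √3 * π := by nlinarith [s3a, pi_lo]

lemma m6c : cos (-(π / 6)) = √3 / 2 := by rw [cos_neg, cos_pi_div_six]
lemma m6s : sin (-(π / 6)) = -(1 / 2) := by rw [sin_neg, sin_pi_div_six]

lemma k1_12 {A C : ℝ} (hA : A ∈ Icc (-(π / 6)) (π / 6)) (hC : C ∈ Icc (-(π / 6)) (π / 6)) :
    0.41 ≤ k1 A C (π / 12) := by
  have hpi := pi_pos
  refine k1_ge hA hC le_rfl (by linarith) ?_ ?_ ?_ ?_ <;> simp only [k1]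
  · rw [show π / 3 - (-(π / 6) + -(π / 6)) / 2 = π / 2 by ring,
      show π / 6 + (-(π / 6) - π / 12) / 2 = π / 24 by ring, sin_pi_div_two, m6c, m6s]
    linarith [si7, s3a, s3pi]
  · rw [show π / 3 - (-(π / 6) + π / 6) / 2 = π / 3 by ring,
      show π / 6 + (π / 6 - π / 12) / 2 = 5 * π / 24 by ring, sin_pi_div_three, m6c, m6s,
      cos_pi_div_six, sin_pi_div_six]
    linarith [si37, s3a, s3pi]
  · rw [show π / 3 - (π / 6 + -(π / 6)) / 2 = π / 3 by ring,
      show π / 6 + (-(π / 6) - π / 12) / 2 = π / 24 by ring, sin_pi_div_three, m6c, m6s,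
      cos_pi_div_six, sin_pi_div_six]
    linarith [si7, s3a]
  · rw [show π / 3 - (π / 6 + π / 6) / 2 = π / 6 by ring,
      show π / 6 + (π / 6 - π / 12) / 2 = 5 * π / 24 by ring, cos_pi_div_six, sin_pi_div_six]
    linarith [si37, s3a]

lemma k1_6 {A C : ℝ} (hA : A ∈ Icc (-(π / 6)) (π / 6)) (hC : C ∈ Icc (-(π / 6)) (π / 6)) :
    0.62 ≤ k1 A C (π / 6) := by
  have hpi := pi_pos
  refine k1_ge hA hC (by linarith) le_rfl ?_ ?_ ?_ ?_ <;> simp only [k1]
  · rw [show π / 3 - (-(π / 6) + -(π / 6)) / 2 = π / 2 by ring,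
      show π / 6 + (-(π / 6) - π / 6) / 2 = 0 by ring, sin_pi_div_two, m6c, m6s, sin_zero]
    linarith [s3a, s3pi]
  · rw [show π / 3 - (-(π / 6) + π / 6) / 2 = π / 3 by ring,
      show π / 6 + (π / 6 - π / 6) / 2 = π / 6 by ring, sin_pi_div_three, m6c, m6s,
      cos_pi_div_six, sin_pi_div_six]
    linarith [s3a, s3pi]
  · rw [show π / 3 - (π / 6 + -(π / 6)) / 2 = π / 3 by ring,
      show π / 6 + (-(π / 6) - π / 6) / 2 = 0 by ring, sin_pi_div_three, m6c, m6s,
      cos_pi_div_six, sin_pi_div_six, sin_zero]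
    linarith [s3a]
  · rw [show π / 3 - (π / 6 + π / 6) / 2 = π / 6 by ring,
      show π / 6 + (π / 6 - π / 6) / 2 = π / 6 by ring, cos_pi_div_six, sin_pi_div_six]
    linarith [s3a]

lemma k2a_12 {B D : ℝ} (hB : B ∈ Icc (-(π / 6)) (π / 6)) (hD : D ∈ Icc 0 (π / 6)) :
    -0.07 ≤ k2 1 2 B D (π / 12) := by
  have hpi := pi_pos
  refine k2_ge (by norm_num) (by norm_num) le_rfl (by norm_num) hB hD (by linarith) le_rfl
    ?_ ?_ ?_ ?_ <;> simp only [k2]
  · rw [show π / 3 - (-(π / 6) + 0) / 2 = 5 * π / 12 by ring,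
      show π / 6 + (0 + π / 12) / 2 = 5 * π / 24 by ring, si75, m6c, m6s, sin_zero, cos_zero]
    linarith [si37, s3a, s3pi, c15.2]
  · rw [show π / 3 - (-(π / 6) + π / 6) / 2 = π / 3 by ring,
      show π / 6 + (π / 6 + π / 12) / 2 = 7 * π / 24 by ring, sin_pi_div_three, m6c, m6s,
      cos_pi_div_six, sin_pi_div_six]
    linarith [si52, s3a, s3pi]
  · rw [show π / 3 - (π / 6 + 0) / 2 = π / 4 by ring,
      show π / 6 + (0 + π / 12) / 2 = 5 * π / 24 by ring, sin_pi_div_four, cos_pi_div_six,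
      sin_pi_div_six, sin_zero, cos_zero]
    linarith [si37, s3a, s2b]
  · rw [show π / 3 - (π / 6 + π / 6) / 2 = π / 6 by ring,
      show π / 6 + (π / 6 + π / 12) / 2 = 7 * π / 24 by ring, cos_pi_div_six, sin_pi_div_six]
    linarith [si52, s3a]

lemma k2a_6 {B D : ℝ} (hB : B ∈ Icc (-(π / 6)) (π / 6)) (hD : D ∈ Icc 0 (π / 6)) :
    -0.17 ≤ k2 1 2 B D (π / 6) := by
  have hpi := pi_pos
  refine k2_ge (by norm_num) (by norm_num) le_rfl (by norm_num) hB hD (by linarith) le_rfl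
    ?_ ?_ ?_ ?_ <;> simp only [k2]
  · rw [show π / 3 - (-(π / 6) + 0) / 2 = 5 * π / 12 by ring,
      show π / 6 + (0 + π / 6) / 2 = π / 4 by ring, si75, m6c, m6s, sin_zero, cos_zero,
      sin_pi_div_four]
    linarith [s3a, s3pi, c15.2, s2b]
  · rw [show π / 3 - (-(π / 6) + π / 6) / 2 = π / 3 by ring,
      show π / 6 + (π / 6 + π / 6) / 2 = π / 3 by ring, sin_pi_div_three, m6c, m6s,
      cos_pi_div_six, sin_pi_div_six]
    linarith [s3a, s3b, s3pi]
  · rw [show π / 3 - (π / 6 + 0) / 2 = π / 4 by ring,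
      show π / 6 + (0 + π / 6) / 2 = π / 4 by ring, sin_pi_div_four, cos_pi_div_six,
      sin_pi_div_six, sin_zero, cos_zero]
    linarith [s3a, s2b]
  · rw [show π / 3 - (π / 6 + π / 6) / 2 = π / 6 by ring,
      show π / 6 + (π / 6 + π / 6) / 2 = π / 3 by ring, cos_pi_div_six, sin_pi_div_six,
      sin_pi_div_three]
    linarith [s3a, s3b]

lemma k2b_12 {B D : ℝ} (hB : B ∈ Icc (-(π / 6)) (π / 6)) (hD : D ∈ Icc (-(π / 6)) 0) :
    0.03 ≤ k2 2 1 B D (π / 12) := by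
  have hpi := pi_pos
  refine k2_ge (by norm_num) (by norm_num) (by norm_num) (by norm_num) hB hD le_rfl
    (by linarith) ?_ ?_ ?_ ?_ <;> simp only [k2]
  · rw [show π / 3 - (-(π / 6) + -(π / 6)) / 2 = π / 2 by ring,
      show π / 6 + (-(π / 6) + π / 12) / 2 = π / 8 by ring, sin_pi_div_two, m6c, m6s]
    linarith [si22, s3a, s3pi]
  · rw [show π / 3 - (-(π / 6) + 0) / 2 = 5 * π / 12 by ring,
      show π / 6 + (0 + π / 12) / 2 = 5 * π / 24 by ring, si75, m6c, m6s, sin_zero, cos_zero]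
    linarith [si37, s3a, s3pi, c15.2]
  · rw [show π / 3 - (π / 6 + -(π / 6)) / 2 = π / 3 by ring,
      show π / 6 + (-(π / 6) + π / 12) / 2 = π / 8 by ring, sin_pi_div_three, m6c, m6s,
      cos_pi_div_six, sin_pi_div_six]
    linarith [si22, s3a]
  · rw [show π / 3 - (π / 6 + 0) / 2 = π / 4 by ring,
      show π / 6 + (0 + π / 12) / 2 = 5 * π / 24 by ring, sin_pi_div_four, cos_pi_div_six,
      sin_pi_div_six, sin_zero, cos_zero]
    linarith [si37, s3a, s2b]

lemma k2b_6 {B D : ℝ} (hB : B ∈ Icc (-(π / 6)) (π / 6)) (hD : D ∈ Icc (-(π / 6)) 0) :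
    -0.17 ≤ k2 2 1 B D (π / 6) := by
  have hpi := pi_pos
  refine k2_ge (by norm_num) (by norm_num) (by norm_num) (by norm_num) hB hD le_rfl
    (by linarith) ?_ ?_ ?_ ?_ <;> simp only [k2]
  · rw [show π / 3 - (-(π / 6) + -(π / 6)) / 2 = π / 2 by ring,
      show π / 6 + (-(π / 6) + π / 6) / 2 = π / 6 by ring, sin_pi_div_two, m6c, m6s,
      sin_pi_div_six]
    linarith [s3a, s3pi]
  · rw [show π / 3 - (-(π / 6) + 0) / 2 = 5 * π / 12 by ring,
      show π / 6 + (0 + π / 6) / 2 = π / 4 by ring, si75, m6c, m6s, sin_zero, cos_zero,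
      sin_pi_div_four]
    linarith [s3a, s3pi, c15.2, s2b]
  · rw [show π / 3 - (π / 6 + -(π / 6)) / 2 = π / 3 by ring,
      show π / 6 + (-(π / 6) + π / 6) / 2 = π / 6 by ring, sin_pi_div_three, m6c, m6s,
      cos_pi_div_six, sin_pi_div_six]
    linarith [s3a]
  · rw [show π / 3 - (π / 6 + 0) / 2 = π / 4 by ring,
      show π / 6 + (0 + π / 6) / 2 = π / 4 by ring, sin_pi_div_four, cos_pi_div_six,
      sin_pi_div_six, sin_zero, cos_zero]
    linarith [s3a, s2b]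

lemma k3_12 : -0.335 ≤ k3 (π / 12) := by
  simp only [k3]
  linarith [c15.1, si15.1, s3b]

lemma k3_6 : -0.392 ≤ k3 (π / 6) := by
  simp only [k3]
  rw [cos_pi_div_six, sin_pi_div_six]
  linarith [s3a]

/-- tangent of the sine at 30 degrees -/
lemma tang {x : ℝ} (h1 : -(π / 6) ≤ x) (h2 : x ≤ π / 6) :
    sin x ≤ 1 / 2 + √3 / 2 * (x - π / 6) := by
  have hm : MonotoneOn (fun y : ℝ => sin y - √3 / 2 * y) (Icc (-(π / 6)) (π / 6)) := by
    refine monotoneOn_of_deriv_nonneg (convex_Icc _ _)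
      (by fun_prop) (by fun_prop) ?_
    intro y hy
    have hy' := interior_subset hy
    have hd : HasDerivAt (fun y : ℝ => sin y - √3 / 2 * y) (cos y - √3 / 2 * 1) y :=
      (hasDerivAt_sin y).sub ((hasDerivAt_id y).const_mul (√3 / 2))
    rw [hd.deriv]
    linarith [cos_lo hy'.1 hy'.2]
  have := hm ⟨h1, h2⟩ (right_mem_Icc.mpr (h1.trans h2)) h2
  simp only [sin_pi_div_six] at this
  linarith

end BP

open Real

/-- (BASEP) -/
def ST_BASEP' : Prop := ∀ A B C D O : ℝ, Box A B C D O → π / 12 ≤ O → sin A + sin C ≤ √3 / 2 →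
  ch (A + B) + ch (2 * π / 3 - A - C) / 2 + ch (π / 3 + C - O) + ch (π / 3 + D + O) +
      ch (2 * π / 3 - B - D) - max (ch (π / 3 + D + O)) (ch (2 * π / 3 - B - D)) / 2 <
    cos A + cos B + cos C + cos D + cos O

theorem basep' : ST_BASEP' := by
  intro A B C D O h hO hAC
  have hA := abs_le.mp h.a
  have hB := abs_le.mp h.b
  have hC := abs_le.mp h.c
  have hD := abs_le.mp h.d
  have hO2 := abs_le.mp h.o
  have ht := h.tor
  have e0 : ch (A + B) ≤ 1 + √3 / 2 * (A + B - π / 3) := by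
    have := BP.tang (x := (A + B) / 2) (by linarith [hA.1, hB.1]) (by linarith [hA.2, hB.2])
    simp only [ch]
    linarith
  have e1 : ch (2 * π / 3 - A - C) = 2 * sin (π / 3 - (A + C) / 2) := by
    simp only [ch]; rw [show (2 * π / 3 - A - C) / 2 = π / 3 - (A + C) / 2 by ring]
  have e2 : ch (π / 3 + C - O) = 2 * sin (π / 6 + (C - O) / 2) := by
    simp only [ch]; rw [show (π / 3 + C - O) / 2 = π / 6 + (C - O) / 2 by ring]
  have e3 : ch (π / 3 + D + O) = 2 * sin (π / 6 + (D + O) / 2) := by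
    simp only [ch]; rw [show (π / 3 + D + O) / 2 = π / 6 + (D + O) / 2 by ring]
  have e4 : ch (2 * π / 3 - B - D) = 2 * sin (π / 3 - (B + D) / 2) := by
    simp only [ch]; rw [show (2 * π / 3 - B - D) / 2 = π / 3 - (B + D) / 2 by ring]
  have hAi : A ∈ Set.Icc (-(π / 6)) (π / 6) := ⟨hA.1, hA.2⟩
  have hBi : B ∈ Set.Icc (-(π / 6)) (π / 6) := ⟨hB.1, hB.2⟩
  have hCi : C ∈ Set.Icc (-(π / 6)) (π / 6) := ⟨hC.1, hC.2⟩
  have q1 := BP.k1_12 hAi hCi
  have q2 := BP.k1_6 hAi hCi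
  have q3 := BP.k3_12
  have q4 := BP.k3_6
  rcases le_total 0 D with hd | hd
  · have hDi : D ∈ Set.Icc 0 (π / 6) := ⟨hd, hD.2⟩
    have key := BP.phi_ge (s := 1) (t := 2) (A := A) (B := B) (D := D) (c := 0.005)
      (by norm_num) (by norm_num) hC.2 hC.1 ⟨hO, hO2.2⟩
      (by linarith [BP.k2a_12 hBi hDi]) (by linarith [BP.k2a_6 hBi hDi])
    have hm := le_max_left (ch (π / 3 + D + O)) (ch (2 * π / 3 - B - D))
    simp only [BP.k1, BP.k2, BP.k3] at key
    rw [e1, e2]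
    linarith
  · have hDi : D ∈ Set.Icc (-(π / 6)) 0 := ⟨hD.1, hd⟩
    have key := BP.phi_ge (s := 2) (t := 1) (A := A) (B := B) (D := D) (c := 0.005)
      (by norm_num) (by norm_num) hC.2 hC.1 ⟨hO, hO2.2⟩
      (by linarith [BP.k2b_12 hBi hDi]) (by linarith [BP.k2b_6 hBi hDi])
    have hm := le_max_right (ch (π / 3 + D + O)) (ch (2 * π / 3 - B - D))
    simp only [BP.k1, BP.k2, BP.k3] at key
    rw [e1, e2]
    linarith

end NH
end H11ST
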